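import Mathlib

set_option autoImplicit false

open Real

namespace Pool.Agent.Helper89.FA

lemma sq3_lo : (1.7320508 : ℝ) < √3 := by
  rw [show (1.7320508 : ℝ) = √(1.7320508 ^ 2) from (Real.sqrt_sq (by norm_num)).symm]
  exact Real.sqrt_lt_sqrt (by norm_num) (by norm_num)

lemma sq3_hi : √3 < (1.7320509 : ℝ) := by
  rw [show (1.7320509 : ℝ) = √(1.7320509 ^ 2) from (Real.sqrt_sq (by norm_num)).symm]
  exact Real.sqrt_lt_sqrt (by norm_num) (by norm_num)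

lemma sq3_sq : √3 ^ 2 = 3 := Real.sq_sqrt (by norm_num)

/-- F5a. -/
theorem alg_e1 {t M : ℝ} (ht : 1.0129 ≤ t) (ht2 : t ≤ √2) (hM : M = (3 - √3 * t) ^ 3 / 24) :
    (1 - t ^ 2 / 2) * (1 - 12 * M) ≤ 12 * M * (t ^ 2 - 1) := by
  have h1 := sq3_lo
  have h2 := sq3_hi
  have h3 := sq3_sq
  have h4 : √2 < 1.4143 := by
    rw [show (1.4143 : ℝ) = √(1.4143 ^ 2) from (Real.sqrt_sq (by norm_num)).symm]
    exact Real.sqrt_lt_sqrt (by norm_num) (by norm_num)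
  obtain ⟨τ, hτ⟩ : ∃ τ, τ = √3 * t := ⟨_, rfl⟩
  have hlo : 1.7543 ≤ τ := by
    rw [hτ]; nlinarith
  have hhi : τ ≤ 2.45 := by
    rw [hτ]; nlinarith
  have hsq : t ^ 2 = τ ^ 2 / 3 := by
    rw [hτ, mul_pow, h3]; ring
  have hp : 0 ≤ -τ ^ 3 + 5 * τ ^ 2 - 3 * τ - 3 := by
    have e : -τ ^ 3 + 5 * τ ^ 2 - 3 * τ - 3 = (2.45 - τ) * (τ - 1.7543) * τ + 0.7957 * τ ^ 2 + 1.298035 * τ - 3 := by
      ring
    rw [e]
    have : 0 ≤ (2.45 - τ) * (τ - 1.7543) * τ := by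
      apply mul_nonneg (mul_nonneg _ _) <;> linarith
    nlinarith
  rw [hM, ← hτ, hsq]
  have e : 12 * ((3 - τ) ^ 3 / 24) * (τ ^ 2 / 3 - 1) - (1 - τ ^ 2 / 3 / 2) * (1 - 12 * ((3 - τ) ^ 3 / 24))
      = (τ - 2) ^ 2 * (-τ ^ 3 + 5 * τ ^ 2 - 3 * τ - 3) / 12 := by ring
  have : 0 ≤ (τ - 2) ^ 2 * (-τ ^ 3 + 5 * τ ^ 2 - 3 * τ - 3) / 12 := by positivity
  linarith

lemma e2_core {u w k : ℝ} (hR : 2 * u ^ 2 + w ^ 2 = 3) (hw0 : 0 < w) (hk1 : 1.2456 ≤ k)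
    (hk2 : k ≤ 1.2457) (hu1 : 0.8771 ≤ u) (huw : 2 * u - w ≤ 1.75440) :
    (k - (3 - w - 2 * u)) ^ 3 ≤ k ^ 3 * u ^ 2 * w := by
  have hw1 : 0.562 ≤ w := by
    by_contra hc
    push Not at hc
    have a1 : u ≤ 1.1583 := by linarith
    nlinarith
  have hu2 : u ≤ 1.1585 := by
    by_contra hc
    push Not at hc
    nlinarith
  have hw2 : w ≤ 1.209 := by
    by_contra hc
    push Not at hc
    nlinarith
  obtain ⟨e, he⟩ : ∃ e, e = 3 - w - 2 * u := ⟨_, rfl⟩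
  obtain ⟨B, hB⟩ : ∃ B, B = u - 1 := ⟨_, rfl⟩
  have heq : e = ((w - 1) ^ 2 + 2 * B ^ 2) / 2 := by
    rw [he, hB]; linear_combination (-1 / 2 : ℝ) * hR
  have he0 : 0 ≤ e := by rw [heq]; positivity
  have hB1 : -0.123 ≤ B := by rw [hB]; linarith
  have hB2 : B ≤ 0.1585 := by rw [hB]; linarith
  have he1 : e ≤ 0.13 := by
    have q1 : (w - 1) ^ 2 ≤ 0.192 := by nlinarith
    have q2 : B ^ 2 ≤ 0.0252 := by nlinarith
    rw [heq]; linarith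
  have hid : k ^ 3 * u ^ 2 * w - (k - e) ^ 3 = e * (3 * k ^ 2 - 2 * k ^ 3
      + e * (k ^ 3 / 2 - 3 * k) + e ^ 2 + k ^ 3 * (B ^ 2 / 3 - 2 * B / 3 + e * B / 3)) := by
    rw [he, hB]
    linear_combination k ^ 3 * (-1 / 2 - (u - 1) / 3) * hR
  have k2l : 1.5515 ≤ k ^ 2 := by
    calc (1.5515 : ℝ) ≤ 1.2456 ^ 2 := by norm_num
      _ ≤ k ^ 2 := pow_le_pow_left₀ (by norm_num) hk1 2
  have k3l : 1.9325 ≤ k ^ 3 := by
    calc (1.9325 : ℝ) ≤ 1.2456 ^ 3 := by norm_num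
      _ ≤ k ^ 3 := pow_le_pow_left₀ (by norm_num) hk1 3
  have k3h : k ^ 3 ≤ 1.9332 := by
    calc k ^ 3 ≤ 1.2457 ^ 3 := pow_le_pow_left₀ (by linarith) hk2 3
      _ ≤ (1.9332 : ℝ) := by norm_num
  have t1 : -2.771 * e ≤ e * (k ^ 3 / 2 - 3 * k) := by
    have : 0 ≤ e * (k ^ 3 / 2 - 3 * k + 2.771) := mul_nonneg he0 (by linarith)
    linarith
  have t0 : -0.017 ≤ e * B := by
    have : 0 ≤ e * (B + 0.123) := mul_nonneg he0 (by linarith)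
    linarith
  have t2 : -0.1115 ≤ B ^ 2 / 3 - 2 * B / 3 + e * B / 3 := by
    have := sq_nonneg B
    linarith
  have t3 : -0.216 ≤ k ^ 3 * (B ^ 2 / 3 - 2 * B / 3 + e * B / 3) := by
    have : 0 ≤ k ^ 3 * (B ^ 2 / 3 - 2 * B / 3 + e * B / 3 + 0.1115) :=
      mul_nonneg (by positivity) (by linarith)
    linarith
  have hG : 0 ≤ 3 * k ^ 2 - 2 * k ^ 3 + e * (k ^ 3 / 2 - 3 * k) + e ^ 2
      + k ^ 3 * (B ^ 2 / 3 - 2 * B / 3 + e * B / 3) := by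
    have := sq_nonneg e
    linarith
  have := mul_nonneg he0 hG
  rw [← he]
  linarith

lemma e2_scaled {x z s : ℝ} (h1 : 1.7320508 < s) (h2 : s < 1.7320509) (h3 : s ^ 2 = 3)
    (hx : 1.0129 ≤ 2 * x) (hz : 0 < z) (h : 2 * x ^ 2 + z ^ 2 = 1) (hzx : 2 * x - z ≤ 1.0129) :
    (z + 2 * x - 1.0129) ^ 3 ≤ (3 - s * 1.0129) ^ 3 * x ^ 2 * z := by
  have hs : 0 < s := by linarith
  have hR : 2 * (s * x) ^ 2 + (s * z) ^ 2 = 3 := by
    linear_combination s ^ 2 * h + h3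
  have hk1 : 1.2456 ≤ 3 - s * 1.0129 := by linarith
  have hk2 : 3 - s * 1.0129 ≤ 1.2457 := by linarith
  have hu1 : 0.8771 ≤ s * x := by
    have : 0 ≤ (s - 1.7320508) * x := mul_nonneg (by linarith) (by linarith)
    linarith
  have huw : 2 * (s * x) - s * z ≤ 1.75440 := by
    have e : 2 * (s * x) - s * z = s * (2 * x - z) := by ring
    have : s * (2 * x - z) ≤ s * 1.0129 := mul_le_mul_of_nonneg_left hzx hs.le
    rw [e]; linarith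
  have hmain := e2_core hR (by positivity) hk1 hk2 hu1 huw
  have e1 : 3 - s * 1.0129 - (3 - s * z - 2 * (s * x)) = s * (z + 2 * x - 1.0129) := by ring
  rw [e1] at hmain
  have e2 : (s * (z + 2 * x - 1.0129)) ^ 3 = s ^ 3 * (z + 2 * x - 1.0129) ^ 3 := by ring
  have e3 : (3 - s * 1.0129) ^ 3 * (s * x) ^ 2 * (s * z) =
      s ^ 3 * ((3 - s * 1.0129) ^ 3 * x ^ 2 * z) := by ring
  rw [e2, e3] at hmain
  exact le_of_mul_le_mul_left hmain (by positivity)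

/-- F5a. -/
theorem alg_e2 {x z : ℝ} (hx : 1.0129 ≤ 2 * x) (hz : 0 < z) (h : 2 * x ^ 2 + z ^ 2 = 1)
    (hzx : 2 * x - z ≤ 1.0129) :
    (z + 2 * x - 1.0129) ^ 3 ≤ (3 - √3 * 1.0129) ^ 3 * x ^ 2 * z :=
  e2_scaled sq3_lo sq3_hi sq3_sq hx hz h hzx

lemma e3_poly {w : ℝ} (h0 : 0 ≤ w) (h1 : w ≤ 9 / 16) :
    8 * w ^ 2 ≤ (3 - w ^ 2) / 2 * (0.5505 + w + 0.4082 * w ^ 2) ^ 3 := by
  obtain ⟨v, hv⟩ : ∃ v, v = 9 / 16 - w := ⟨_, rfl⟩
  have hv0 : 0 ≤ v := by rw [hv]; linarith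
  have e : (3 - w ^ 2) / 2 * (0.5505 + w + 0.4082 * w ^ 2) ^ 3 - 8 * w ^ 2 =
      (25916008300544 / 1037970703125) * (w ^ 0 * v ^ 8) +
      (286770871140352 / 1037970703125) * (w ^ 1 * v ^ 7) +
      (5581430627846144 / 5189853515625) * (w ^ 2 * v ^ 6) +
      (10916857818036224 / 5189853515625) * (w ^ 3 * v ^ 5) +
      (60206631500746928 / 25949267578125) * (w ^ 4 * v ^ 4) +
      (38422731443568512 / 25949267578125) * (w ^ 5 * v ^ 3) +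
      (544974700785082691 / 1037970703125000) * (w ^ 6 * v ^ 2) +
      (92612361079922347 / 1037970703125000) * (w ^ 7 * v ^ 1) +
      (535892343634086887 / 132860250000000000) * (w ^ 8 * v ^ 0) := by
    rw [hv]; ring
  have : 0 ≤ (25916008300544 / 1037970703125) * (w ^ 0 * v ^ 8) +
      (286770871140352 / 1037970703125) * (w ^ 1 * v ^ 7) +
      (5581430627846144 / 5189853515625) * (w ^ 2 * v ^ 6) +
      (10916857818036224 / 5189853515625) * (w ^ 3 * v ^ 5) +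
      (60206631500746928 / 25949267578125) * (w ^ 4 * v ^ 4) +
      (38422731443568512 / 25949267578125) * (w ^ 5 * v ^ 3) +
      (544974700785082691 / 1037970703125000) * (w ^ 6 * v ^ 2) +
      (92612361079922347 / 1037970703125000) * (w ^ 7 * v ^ 1) +
      (535892343634086887 / 132860250000000000) * (w ^ 8 * v ^ 0) := by positivity
  linarith

lemma e3_core {u w : ℝ} (hw0 : 0 ≤ w) (hR : 2 * u ^ 2 + w ^ 2 = 3) (huw : 1.7543 ≤ 2 * u - w) :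
    8 * w ^ 2 ≤ u ^ 2 * (3 - 2 * u + w) ^ 3 := by
  have hw1 : w ≤ 9 / 16 := by
    by_contra hc
    push Not at hc
    nlinarith
  have hw2 : w ^ 2 ≤ 1 / 2 := by nlinarith
  have hu2 : 2 * u ≤ 2.4495 - 0.4082 * w ^ 2 := by
    have h4 : (2 * u) ^ 2 ≤ (2.4495 - 0.4082 * w ^ 2) ^ 2 := by
      nlinarith [sq_nonneg (w ^ 2)]
    exact (abs_le_of_sq_le_sq' h4 (by linarith)).2
  have hk : 0.5505 + w + 0.4082 * w ^ 2 ≤ 3 - 2 * u + w := by linarith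
  have hk0 : 0 ≤ 0.5505 + w + 0.4082 * w ^ 2 := by positivity
  have hcube : (0.5505 + w + 0.4082 * w ^ 2) ^ 3 ≤ (3 - 2 * u + w) ^ 3 :=
    pow_le_pow_left₀ hk0 hk 3
  have hp := e3_poly hw0 hw1
  have hu3 : u ^ 2 = (3 - w ^ 2) / 2 := by linarith
  calc 8 * w ^ 2 ≤ u ^ 2 * (0.5505 + w + 0.4082 * w ^ 2) ^ 3 := by rw [hu3]; exact hp
    _ ≤ _ := mul_le_mul_of_nonneg_left hcube (sq_nonneg u)

lemma e3_scaled {x z s : ℝ} (h1 : 1.7320508 < s) (h3 : s ^ 2 = 3)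
    (hz : 0 ≤ z) (h : 2 * x ^ 2 + z ^ 2 = 1) (ht : 1.0129 ≤ 2 * x - z) :
    8 * z ^ 2 ≤ x ^ 2 * (3 - s * (2 * x - z)) ^ 3 := by
  have hs : 0 < s := by linarith
  have hR : 2 * (s * x) ^ 2 + (s * z) ^ 2 = 3 := by
    linear_combination s ^ 2 * h + h3
  have huw : 1.7543 ≤ 2 * (s * x) - s * z := by
    have e : 2 * (s * x) - s * z = s * (2 * x - z) := by ring
    have : s * 1.0129 ≤ s * (2 * x - z) := mul_le_mul_of_nonneg_left ht hs.le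
    rw [e]; linarith
  have hmain := e3_core (by positivity) hR huw
  have e1 : 3 - 2 * (s * x) + s * z = 3 - s * (2 * x - z) := by ring
  rw [e1] at hmain
  have e2 : 8 * (s * z) ^ 2 = s ^ 2 * (8 * z ^ 2) := by ring
  have e3 : (s * x) ^ 2 * (3 - s * (2 * x - z)) ^ 3 =
      s ^ 2 * (x ^ 2 * (3 - s * (2 * x - z)) ^ 3) := by ring
  rw [e2, e3] at hmain
  exact le_of_mul_le_mul_left hmain (by positivity)

/-- F5a. -/
theorem alg_e3 {x z : ℝ} (hx : 0 < x) (hz : 0 ≤ z) (h : 2 * x ^ 2 + z ^ 2 = 1)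
    (ht : 1.0129 ≤ 2 * x - z) :
    8 * z ^ 2 ≤ x ^ 2 * (3 - √3 * (2 * x - z)) ^ 3 := by
  have _ := hx
  exact e3_scaled sq3_lo sq3_sq hz h ht

/-- F5a. -/
theorem alg_mono {x z t t' : ℝ} (hx : 0 < x) (hz : 0 < z) (h : 2 * x ^ 2 + z ^ 2 = 1) (htt : t ≤ t')
    (ht' : t' ≤ √3) (hs : t' ≤ z + 2 * x)
    (h1 : (z + 2 * x - t) ^ 3 ≤ (3 - √3 * t) ^ 3 * x ^ 2 * z) :
    (z + 2 * x - t') ^ 3 ≤ (3 - √3 * t') ^ 3 * x ^ 2 * z := by
  have h3 := sq3_sq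
  have hs0 : 0 < √3 := by have := sq3_lo; linarith
  obtain ⟨c, hc0, hc⟩ : ∃ c : ℝ, 0 ≤ c ∧ c ^ 3 = x ^ 2 * z := by
    refine ⟨(x ^ 2 * z) ^ ((1 : ℝ) / 3), by positivity, ?_⟩
    rw [← Real.rpow_natCast, ← Real.rpow_mul (by positivity)]
    norm_num
  have hodd : Odd 3 := by decide
  have hA : z + 2 * x - t ≤ (3 - √3 * t) * c := by
    have e : (3 - √3 * t) ^ 3 * x ^ 2 * z = ((3 - √3 * t) * c) ^ 3 := by
      rw [mul_pow, hc]; ring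
    rw [e] at h1
    exact hodd.strictMono_pow.le_iff_le.mp h1
  have hc1 : √3 * c ≤ 1 := by
    have q : (x ^ 2 * z) ^ 2 * 27 ≤ 1 := by
      have q1 : x ^ 2 = (1 - z ^ 2) / 2 := by linarith
      have e : (x ^ 2 * z) ^ 2 = ((1 - z ^ 2) / 2) ^ 2 * z ^ 2 := by rw [mul_pow, q1]
      rw [e]
      have hz1 : z ^ 2 ≤ 1 := by nlinarith
      nlinarith [mul_nonneg (sq_nonneg (3 * z ^ 2 - 1)) (by nlinarith : 0 ≤ 4 - 3 * z ^ 2)]
    have q2 : ((√3 * c) ^ 3) ^ 2 ≤ 1 ^ 2 := by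
      have : ((√3 * c) ^ 3) ^ 2 = (√3 ^ 2) ^ 3 * (c ^ 3) ^ 2 := by ring
      rw [this, h3, hc]; linarith
    have q3 : (√3 * c) ^ 3 ≤ 1 := by
      exact abs_le_of_sq_le_sq' q2 (by norm_num) |>.2
    have q4 : (√3 * c) ^ 3 ≤ (1 : ℝ) ^ 3 := by rw [one_pow]; exact q3
    exact hodd.strictMono_pow.le_iff_le.mp q4
  have hB : z + 2 * x - t' ≤ (3 - √3 * t') * c := by
    nlinarith
  have e : (3 - √3 * t') ^ 3 * x ^ 2 * z = ((3 - √3 * t') * c) ^ 3 := by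
    rw [mul_pow, hc]; ring
  rw [e]
  exact pow_le_pow_left₀ (by linarith) hB 3

end Pool.Agent.Helper89.FA
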